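import Pool.Agent.H98.SLN.Targets

/-!
# Row MAS: the mass of the paths with short excursions (helper73)
-/

set_option autoImplicit false

open MeasureTheory ProbabilityTheory Filter Topology
open scoped ENNReal
open Pool.Agent.H95 Pool.Agent.H95.Cop
open Pool.Agent.H55.CG (pz VV Mo)
open Pool.Agent.H98.SLN

namespace Pool.Agent.H73.SLN

lemma mas_uqle (K : PMF ℕ) (q n : ℕ) : 0 ≤ uq K q n ∧ uq K q n ≤ uu (kk K) n := by
  induction n using Nat.strong_induction_on with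
  | _ n ih =>
    cases n with
    | zero => simp [uq, uu_zero]
    | succ n =>
      have hk : ∀ i, 0 ≤ kq K q i ∧ kq K q i ≤ kk K i := by
        intro i
        unfold kq
        split_ifs
        · exact ⟨kk_nonneg K i, le_refl _⟩
        · exact ⟨le_refl _, kk_nonneg K i⟩
      unfold uq at ih ⊢
      rw [uu_succ, uu_succ]
      constructor
      · apply Finset.sum_nonneg
        intro j _
        exact mul_nonneg (hk _).1 (ih (n - j) (by omega)).1
      · apply Finset.sum_le_sum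
        intro j _
        exact mul_le_mul (hk _).2 (ih (n - j) (by omega)).2 (ih (n - j) (by omega)).1
          (kk_nonneg K _)

lemma mas_T_small (K : PMF ℕ) (q j : ℕ) (h : j ≤ q + 1) :
    1 - ∑ i ∈ Finset.range j, kq K q i = tailK K j := by
  unfold tailK
  have : ∑ i ∈ Finset.range j, kq K q i = ∑ i ∈ Finset.range j, kk K i := by
    apply Finset.sum_congr rfl
    intro i hi
    rw [Finset.mem_range] at hi
    unfold kq
    rw [if_pos (by omega)]
  rw [this]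

lemma mas_T_big (K : PMF ℕ) (q j : ℕ) (h : q + 1 ≤ j) :
    1 - ∑ i ∈ Finset.range j, kq K q i = tailK K (q + 1) := by
  rw [← mas_T_small K q (q + 1) (le_refl _)]
  have : ∑ i ∈ Finset.range j, kq K q i = ∑ i ∈ Finset.range (q + 1), kq K q i := by
    symm
    apply Finset.sum_subset
    · intro i hi
      rw [Finset.mem_range] at hi ⊢
      omega
    · intro i _ hi
      rw [Finset.mem_range] at hi
      unfold kq
      rw [if_neg (by omega)]
  rw [this]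

lemma mas_T_nonneg (K : PMF ℕ) (q j : ℕ) : 0 ≤ 1 - ∑ i ∈ Finset.range j, kq K q i := by
  rcases le_total j (q + 1) with h | h
  · rw [mas_T_small K q j h]; exact tailK_nonneg K _
  · rw [mas_T_big K q j h]; exact tailK_nonneg K _

lemma mas_T_le (K : PMF ℕ) (q j : ℕ) :
    1 - ∑ i ∈ Finset.range j, kq K q i ≤ tailK K j + tailK K (q + 1) := by
  rcases le_total j (q + 1) with h | h
  · rw [mas_T_small K q j h]; linarith [tailK_nonneg K (q + 1)]
  · rw [mas_T_big K q j h]; linarith [tailK_nonneg K j]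

lemma mas_UU_mono (K : PMF ℕ) {A B : ℕ} (h : A ≤ B) : UU K A ≤ UU K B := by
  unfold UU
  apply Finset.sum_le_sum_of_subset_of_nonneg
  · intro i hi
    rw [Finset.mem_range] at hi ⊢
    omega
  · intro i _ _
    exact uu_nonneg _ (kk_nonneg K) _

/-- the window sum -/
lemma mas_window (hRID : T_RID) (hUUP : T_UUP) (hTLQ : T_TLQ) (K : PMF ℕ) (α c δ : ℝ) (ℓ q : ℕ)
    (hR : RG K α c δ ℓ q) (A : ℕ) (L : ℝ) (hL1 : 1 ≤ L) (hA : (A : ℝ) ≤ L * ℓ)
    (hL : 2 ^ 9 * Real.sqrt δ * L ≤ 1) :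
    3 / 4 * ℓ ≤ (∑ n ∈ Finset.Ico A (A + ℓ), uq K q n) * TS K ℓ := by
  obtain ⟨hl1, hql, hTS, hT0, -⟩ := hTLQ K α c δ ℓ q hR
  obtain ⟨hU1, hU2, -, -⟩ := hUUP K hR.K0
  set s := Real.sqrt δ with hs
  have hs0 : 0 ≤ s := Real.sqrt_nonneg _
  have hs1 : s ≤ 1 / 2 ^ 10 := by
    rw [hs]
    apply Real.sqrt_le_iff.mpr
    constructor
    · positivity
    · have := hR.δ1
      norm_num at this ⊢
      linarith
  have hlR : (1 : ℝ) ≤ ℓ := by exact_mod_cast hl1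
  set T0 := tailK K (q + 1) with hT0d
  have hT00 : 0 ≤ T0 := tailK_nonneg K _
  -- UU K A * TS K ℓ ≤ 2 L ℓ
  have hUA : UU K A * TS K ℓ ≤ 2 * (L * ℓ) := by
    have h1 : UU K A ≤ UU K (max A ℓ) := mas_UU_mono K (le_max_left _ _)
    have h2 : TS K ℓ ≤ TS K (max A ℓ) := hU2 _ _ (le_max_right _ _)
    have h3 := hU1 (max A ℓ)
    have h4 : ((max A ℓ : ℕ) : ℝ) ≤ L * ℓ := by
      rw [Nat.cast_max]
      apply max_le hA
      nlinarith
    have h5 : 0 ≤ UU K (max A ℓ) := Finset.sum_nonneg fun n _ => uu_nonneg _ (kk_nonneg K) n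
    calc UU K A * TS K ℓ ≤ UU K (max A ℓ) * TS K (max A ℓ) :=
          mul_le_mul h1 h2 hTS.le h5
      _ ≤ 2 * ((max A ℓ : ℕ) : ℝ) := h3
      _ ≤ _ := by linarith
  -- small part
  have hsm : T0 * UU K A ≤ 1 / 8 := by
    have h1 : (T0 * UU K A) * (ℓ * TS K ℓ) ≤ 1 / 8 * (ℓ * TS K ℓ) := by
      have h2 : (T0 * ℓ) * (UU K A * TS K ℓ) ≤ (32 * s * TS K ℓ) * (2 * (L * ℓ)) := by
        apply mul_le_mul hT0 hUA
        · exact mul_nonneg (Finset.sum_nonneg fun n _ => uu_nonneg _ (kk_nonneg K) n) hTS.le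
        · positivity
      have h3 : (32 * s * TS K ℓ) * (2 * (L * ℓ)) = (2 ^ 9 * s * L) * (1 / 8 * (ℓ * TS K ℓ)) := by
        ring
      have h4 : (2 ^ 9 * s * L) * (1 / 8 * (ℓ * TS K ℓ)) ≤ 1 * (1 / 8 * (ℓ * TS K ℓ)) := by
        apply mul_le_mul_of_nonneg_right hL
        positivity
      calc (T0 * UU K A) * (ℓ * TS K ℓ) = (T0 * ℓ) * (UU K A * TS K ℓ) := by ring
        _ ≤ _ := h2
        _ = _ := h3
        _ ≤ _ := h4
        _ = _ := by ring
    have h5 : 0 < ℓ * TS K ℓ := mul_pos (by linarith) hTS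
    exact le_of_mul_le_mul_right h1 h5
  set T : ℕ → ℝ := fun j => 1 - ∑ i ∈ Finset.range j, kq K q i with hTd
  have hTn : ∀ j, 0 ≤ T j := fun j => mas_T_nonneg K q j
  have hu0 : ∀ n, 0 ≤ uq K q n := fun n => (mas_uqle K q n).1
  have hkq0 : kq K q 0 = 0 := by
    unfold kq
    rw [if_pos (Nat.zero_le _)]
    simp [kk, hR.K0]
  -- each m
  have hm : ∀ m ∈ Finset.Ico (A + q) (A + ℓ),
      7 / 8 ≤ ∑ n ∈ Finset.Ico A (m + 1), uq K q n * T (m + 1 - n) := by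
    intro m hm
    rw [Finset.mem_Ico] at hm
    have h1 := hRID (kq K q) hkq0 m
    have h2 : ∑ n ∈ Finset.range (m + 1), uu (kq K q) n *
        (1 - ∑ i ∈ Finset.range (m + 1 - n), kq K q i) =
        ∑ n ∈ Finset.range A, uq K q n * T (m + 1 - n) +
          ∑ n ∈ Finset.Ico A (m + 1), uq K q n * T (m + 1 - n) := by
      rw [Finset.sum_range_add_sum_Ico _ (by omega)]
      rfl
    have h3 : ∑ n ∈ Finset.range A, uq K q n * T (m + 1 - n) ≤ T0 * UU K A := by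
      unfold UU
      rw [Finset.mul_sum]
      apply Finset.sum_le_sum
      intro n hn
      rw [Finset.mem_range] at hn
      have h4 : T (m + 1 - n) = T0 := mas_T_big K q _ (by omega)
      rw [h4, mul_comm]
      exact mul_le_mul_of_nonneg_left (mas_uqle K q n).2 hT00
    rw [h2] at h1
    linarith
  have hsum : 7 / 8 * ((ℓ : ℝ) - q) ≤
      ∑ m ∈ Finset.Ico (A + q) (A + ℓ), ∑ n ∈ Finset.Ico A (m + 1), uq K q n * T (m + 1 - n) := by
    have h1 : ∑ m ∈ Finset.Ico (A + q) (A + ℓ), (7 / 8 : ℝ) = 7 / 8 * ((ℓ : ℝ) - q) := by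
      rw [Finset.sum_const, Nat.card_Ico, nsmul_eq_mul]
      have : A + ℓ - (A + q) = ℓ - q := by omega
      rw [this, Nat.cast_sub hql]
      ring
    rw [← h1]
    exact Finset.sum_le_sum hm
  have hsw : ∑ m ∈ Finset.Ico (A + q) (A + ℓ), ∑ n ∈ Finset.Ico A (m + 1),
      uq K q n * T (m + 1 - n) ≤
      ∑ n ∈ Finset.Ico A (A + ℓ), uq K q n * ∑ j ∈ Finset.range ℓ, T (j + 1) := by
    have h1 : ∑ m ∈ Finset.Ico (A + q) (A + ℓ), ∑ n ∈ Finset.Ico A (m + 1),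
        uq K q n * T (m + 1 - n) ≤ ∑ m ∈ Finset.Ico A (A + ℓ), ∑ n ∈ Finset.Ico A (m + 1),
        uq K q n * T (m + 1 - n) := by
      apply Finset.sum_le_sum_of_subset_of_nonneg
      · intro m hm
        rw [Finset.mem_Ico] at hm ⊢
        omega
      · intro m _ _
        exact Finset.sum_nonneg fun n _ => mul_nonneg (hu0 n) (hTn _)
    refine h1.trans ?_
    have h2 : ∑ m ∈ Finset.Ico A (A + ℓ), ∑ n ∈ Finset.Ico A (m + 1), uq K q n * T (m + 1 - n) =
        ∑ n ∈ Finset.Ico A (A + ℓ), ∑ m ∈ Finset.Ico n (A + ℓ), uq K q n * T (m + 1 - n) := by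
      apply Finset.sum_comm'
      intro m n
      simp only [Finset.mem_Ico]
      omega
    rw [h2]
    apply Finset.sum_le_sum
    intro n hn
    rw [Finset.mem_Ico] at hn
    rw [← Finset.mul_sum]
    apply mul_le_mul_of_nonneg_left _ (hu0 n)
    have h3 : ∑ m ∈ Finset.Ico n (A + ℓ), T (m + 1 - n) =
        ∑ j ∈ Finset.range (A + ℓ - n), T (j + 1) := by
      rw [Finset.sum_Ico_eq_sum_range]
      apply Finset.sum_congr rfl
      intro j _
      have : n + j + 1 - n = j + 1 := by omega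
      rw [this]
    rw [h3]
    apply Finset.sum_le_sum_of_subset_of_nonneg
    · intro i hi
      rw [Finset.mem_range] at hi ⊢
      omega
    · intro i _ _
      exact hTn _
  have hTsum : ∑ j ∈ Finset.range ℓ, T (j + 1) ≤ 33 / 32 * TS K ℓ := by
    have h1 : ∑ j ∈ Finset.range ℓ, T (j + 1) ≤ TS K ℓ + ℓ * T0 := by
      have h2 : ∑ j ∈ Finset.range ℓ, T (j + 1) ≤
          ∑ j ∈ Finset.range ℓ, (tailK K (j + 1) + T0) :=
        Finset.sum_le_sum fun j _ => mas_T_le K q (j + 1)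
      rw [Finset.sum_add_distrib, Finset.sum_const, Finset.card_range, nsmul_eq_mul] at h2
      exact h2
    have h3 : (ℓ : ℝ) * T0 ≤ 1 / 32 * TS K ℓ := by
      have h4 : 32 * s * TS K ℓ ≤ 1 / 32 * TS K ℓ := by
        apply mul_le_mul_of_nonneg_right _ hTS.le
        norm_num at hs1 ⊢
        linarith
      linarith [mul_comm (ℓ : ℝ) T0]
    linarith
  have hW0 : 0 ≤ ∑ n ∈ Finset.Ico A (A + ℓ), uq K q n := Finset.sum_nonneg fun n _ => hu0 n
  have hfin : 7 / 8 * ((ℓ : ℝ) - q) ≤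
      (∑ n ∈ Finset.Ico A (A + ℓ), uq K q n) * (33 / 32 * TS K ℓ) := by
    refine (hsum.trans hsw).trans ?_
    rw [← Finset.sum_mul]
    exact mul_le_mul_of_nonneg_left hTsum hW0
  have hq3 : (q : ℝ) ≤ 1 / 2 ^ 10 * ℓ := hR.q3.trans (mul_le_mul_of_nonneg_right hs1 (by linarith))
  norm_num at hq3
  have h6 : 7 / 8 * ((ℓ : ℝ) - 1 / 1024 * ℓ) ≤
      33 / 32 * ((∑ n ∈ Finset.Ico A (A + ℓ), uq K q n) * TS K ℓ) := by
    calc 7 / 8 * ((ℓ : ℝ) - 1 / 1024 * ℓ) ≤ 7 / 8 * ((ℓ : ℝ) - q) := by linarith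
      _ ≤ _ := hfin
      _ = _ := by ring
  linarith

theorem pf_MAS (hRID : T_RID) (hUUP : T_UUP) (hTLQ : T_TLQ) : T_MAS := by
  intro K α c δ ℓ q hR a b hab hL
  obtain ⟨hl1, hql, hTS, hT0, -⟩ := hTLQ K α c δ ℓ q hR
  obtain ⟨hU1, -, hU3, -⟩ := hUUP K hR.K0
  have hlR : (1 : ℝ) ≤ ℓ := by exact_mod_cast hl1
  have habR : (a : ℝ) + 1 ≤ b := by exact_mod_cast hab
  -- the inner sums
  have hin : ∀ y ∈ Finset.Ico (a * ℓ) ((a + 1) * ℓ), 3 / 4 * ℓ / TS K ℓ ≤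
      ∑ z ∈ Finset.Ico (b * ℓ) ((b + 1) * ℓ), uq K q (z - y) := by
    intro y hy
    rw [Finset.mem_Ico] at hy
    have hyb : y ≤ b * ℓ := hy.2.le.trans (Nat.mul_le_mul_right ℓ hab)
    have h1 : ∑ z ∈ Finset.Ico (b * ℓ) ((b + 1) * ℓ), uq K q (z - y) =
        ∑ n ∈ Finset.Ico (b * ℓ - y) (b * ℓ - y + ℓ), uq K q n := by
      rw [Finset.sum_Ico_eq_sum_range, Finset.sum_Ico_eq_sum_range]
      have e1 : (b + 1) * ℓ - b * ℓ = ℓ := by rw [Nat.add_mul, one_mul]; omega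
      have e2 : b * ℓ - y + ℓ - (b * ℓ - y) = ℓ := by omega
      rw [e1, e2]
      apply Finset.sum_congr rfl
      intro j _
      have : b * ℓ + j - y = b * ℓ - y + j := by omega
      rw [this]
    rw [h1, div_le_iff₀ hTS]
    apply mas_window hRID hUUP hTLQ K α c δ ℓ q hR (b * ℓ - y) ((b : ℝ) + 1 - a) (by linarith)
      _ hL
    rw [Nat.cast_sub hyb]
    push_cast
    have h2 : (a : ℝ) * ℓ ≤ y := by exact_mod_cast hy.1
    nlinarith
  have hMM : (ℓ : ℝ) * (3 / 4 * ℓ / TS K ℓ) ≤ MM K ℓ q a b := by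
    unfold MM
    have h1 : ∑ y ∈ Finset.Ico (a * ℓ) ((a + 1) * ℓ), (3 / 4 * (ℓ : ℝ) / TS K ℓ) =
        (ℓ : ℝ) * (3 / 4 * ℓ / TS K ℓ) := by
      rw [Finset.sum_const, Nat.card_Ico, nsmul_eq_mul]
      have : (a + 1) * ℓ - a * ℓ = ℓ := by rw [Nat.add_mul, one_mul]; omega
      rw [this]
    rw [← h1]
    exact Finset.sum_le_sum hin
  have hVV : VV K ℓ ≤ ℓ * (2 * ℓ / TS K ℓ) := by
    refine (hU3 ℓ).trans (mul_le_mul_of_nonneg_left ?_ (by linarith))
    rw [le_div_iff₀ hTS]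
    exact hU1 ℓ
  have hpos : 0 < (ℓ : ℝ) * (3 / 4 * ℓ / TS K ℓ) := by positivity
  refine ⟨?_, lt_of_lt_of_le hpos hMM⟩
  have h3 : (ℓ : ℝ) * (2 * ℓ / TS K ℓ) = 8 / 3 * ((ℓ : ℝ) * (3 / 4 * ℓ / TS K ℓ)) := by ring
  rw [h3] at hVV
  linarith

end Pool.Agent.H73.SLN
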